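import Pool.Agent.H15.Cut

set_option autoImplicit false

namespace Pool.Agent.Results.MP_ec2323_pr.NoCutoff

open Finset Filter Topology Matrix

noncomputable section

section
variable {V : Type} [Fintype V] [DecidableEq V] (G : SimpleGraph V) [DecidableRel G.Adj]

/-- Jump matrix of simple random walk on `G`. -/
def J : Matrix V V ℝ := fun x y => if G.Adj x y then 1 / (G.degree x : ℝ) else 0

/-- Stationary distribution. -/
def stat (x : V) : ℝ := (G.degree x : ℝ) / (2 * (G.edgeFinset.card : ℝ))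

/-- Total variation distance to stationarity at time `t` of the rate one continuous-time walk
started at `x`; its generator is `J - 1`. -/
def d (x : V) (t : ℝ) : ℝ := (1 / 2) * ∑ y, |NormedSpace.exp (t • (J G - 1)) x y - stat G y|

def tau (x : V) : ℝ := sInf {t : ℝ | 0 ≤ t ∧ d G x t ≤ 1 / 4}

/-- The largest eigenvalue of `J` other than the (simple) eigenvalue `1`. -/
def lam2 : ℝ := sSup {l : ℝ | l ≠ 1 ∧ ∃ f : V → ℝ, f ≠ 0 ∧ J G *ᵥ f = l • f}

/-- Relaxation time: the inverse of the spectral gap of the generator `J - 1`. -/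
def tau2 : ℝ := 1 / (1 - lam2 G)
end

open MP_8d2225_pr H15.Cut

def wt (s : ℝ) (j : ℕ) : ℝ := Real.exp (-s) * (s ^ j / j.factorial)

lemma wt0 {s : ℝ} (h : 0 ≤ s) (j : ℕ) : 0 ≤ wt s j := by unfold wt; positivity

lemma wt_sum (s a : ℝ) : HasSum (fun j => wt s j * a ^ j) (Real.exp (s * (a - 1))) := by
  have := (NormedSpace.expSeries_div_hasSum_exp (s * a)).mul_left (Real.exp (-s))
  rw [← Real.exp_eq_exp_ℝ, ← Real.exp_add, show -s + s * a = s * (a - 1) by ring] at this
  have e : (fun j => wt s j * a ^ j) = fun j : ℕ => Real.exp (-s) * ((s * a) ^ j / j.factorial) := by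
    ext j; rw [wt, mul_pow]; ring
  rwa [e]

lemma exp_sum {V : Type} [Fintype V] [DecidableEq V] (A : Matrix V V ℝ) (s : ℝ) (x y : V) :
    HasSum (fun j => wt s j * (A ^ j) x y) (NormedSpace.exp (s • (A - 1)) x y) := by
  have h : HasSum (fun j : ℕ => ((j.factorial : ℝ)⁻¹) • (s • A) ^ j) (NormedSpace.exp (s • A)) := by
    open scoped Matrix.Norms.Operator in exact NormedSpace.exp_series_hasSum_exp' _
  have e : NormedSpace.exp (s • (A - 1)) = Real.exp (-s) • NormedSpace.exp (s • A) := by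
    rw [show s • (A - 1) = diagonal (fun _ => -s) + s • A by
      ext x y; by_cases h : x = y <;> simp [h, one_apply, mul_add, add_comm, sub_eq_add_neg],
      Matrix.exp_add_of_commute _ _ (by
        rw [← scalar_apply]; exact (scalar_commute _ (fun _ => Commute.all _ _) _)), exp_diagonal]
    ext x y
    simp [Real.exp_eq_exp_ℝ]
  have := ((Pi.hasSum.1 (Pi.hasSum.1 h x)) y).mul_left (Real.exp (-s))
  have e' : (fun j => wt s j * (A ^ j) x y) = fun j : ℕ =>
      Real.exp (-s) * (((j.factorial : ℝ)⁻¹) • (s • A) ^ j) x y := by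
    ext j; rw [wt, smul_pow]; simp only [Matrix.smul_apply, smul_eq_mul]; ring
  rw [e, e']
  exact this

variable {p k r : ℕ} [Fact p.Prime] [NeZero r]

abbrev Γ (p k r : ℕ) [Fact p.Prime] [NeZero r] : SimpleGraph (NoCutoff.GG p k r) :=
  cay (S := NoCutoff.SS p k r) NoCutoff.zero_nm NoCutoff.SS_neg

lemma eJ : J (Γ p k r) - 1 = (2 : ℝ) • (NoCutoff.P (NoCutoff.SS p k r) - 1) := by
  ext x y
  simp only [J, cay_deg, Matrix.sub_apply, Matrix.smul_apply, NoCutoff.P, one_apply, smul_eq_mul]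
  show (if y - x ∈ _ then _ else _) - _ = _
  split_ifs <;> ring

lemma estat (y : NoCutoff.GG p k r) :
    stat (Γ p k r) y = 1 / (Fintype.card (NoCutoff.GG p k r) : ℝ) := by
  have a := (Γ p k r).sum_degrees_eq_twice_card_edges
  simp only [cay_deg, sum_const, card_univ, smul_eq_mul] at a
  have b : (0 : ℝ) < (NoCutoff.SS p k r).card := by exact_mod_cast NoCutoff.SS_ne.card_pos
  have c : (2 : ℝ) * (Γ p k r).edgeFinset.card =
      Fintype.card (NoCutoff.GG p k r) * (NoCutoff.SS p k r).card := by exact_mod_cast a.symm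
  rw [stat, c, cay_deg]
  field_simp

lemma hs (t : ℝ) (x y : NoCutoff.GG p k r) :
    HasSum (fun j => wt (t * 2) j * (NoCutoff.P (NoCutoff.SS p k r) ^ j) x y)
      (NormedSpace.exp (t • (J (Γ p k r) - 1)) x y) := by
  rw [eJ, smul_smul]
  exact exp_sum _ _ _ _

lemma d_shift (x : NoCutoff.GG p k r) (t : ℝ) : d (Γ p k r) x t = d (Γ p k r) 0 t := by
  simp only [d, estat]
  rw [← Equiv.sum_comp (Equiv.addRight x)]
  congr 1
  refine sum_congr rfl fun y _ => ?_
  have a := hs t x (y + x)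
  simp only [P_shift _ x, add_sub_cancel_right] at a
  exact congrArg (fun z => |z - _|) (a.unique (hs t 0 y))

lemma d_up (t : ℝ) (ht : 0 ≤ t) :
    d (Γ p k r) 0 t ≤ Real.exp (-(t / (r + 1))) + Real.exp (-(t / 2)) := by
  set c : ℝ := 1 / Fintype.card (NoCutoff.GG p k r) with hc
  have w0 := wt0 (s := t * 2) (by linarith)
  have a : ∀ y, HasSum (fun j => wt (t * 2) j * ((NoCutoff.P (NoCutoff.SS p k r) ^ j) 0 y - c))
      (NormedSpace.exp (t • (J (Γ p k r) - 1)) 0 y - c) := fun y => by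
    have := (hs t 0 y).sub ((wt_sum (t * 2) 1).mul_right c)
    simpa [mul_sub] using this
  choose σ h1 h2 using fun y => (by
    rcases le_total 0 (NormedSpace.exp (t • (J (Γ p k r) - 1)) 0 y - c) with h | h
    · exact ⟨1, by simp, by rw [abs_of_nonneg h, one_mul]⟩
    · exact ⟨-1, by simp, by rw [abs_of_nonpos h, neg_one_mul]⟩ : ∃ σ : ℝ, |σ| = 1 ∧
    |NormedSpace.exp (t • (J (Γ p k r) - 1)) 0 y - c| =
      σ * (NormedSpace.exp (t • (J (Γ p k r) - 1)) 0 y - c))
  have b := (hasSum_sum (s := univ) fun y _ => (a y).mul_left (σ y)).mul_left (1 / 2)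
  have e := (wt_sum (t * 2) (1 - 1 / (2 * (r + 1)))).add (wt_sum (t * 2) (1 - 1 / 4))
  rw [show t * 2 * (1 - 1 / (2 * (r + 1)) - 1) = -(t / (r + 1)) by field_simp; ring,
    show t * 2 * (1 - 1 / 4 - 1) = -(t / 2) by ring] at e
  simp only [d, estat, ← hc, h2]
  refine hasSum_le (fun j => ?_) b e
  have u := (le_ciSup (Finite.bddAbove_range _) 0).trans (NoCutoff.upper (p := p) (k := k) (r := r) j)
  have v : ∑ y, σ y * (wt (t * 2) j * ((NoCutoff.P (NoCutoff.SS p k r) ^ j) 0 y - c)) ≤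
      wt (t * 2) j * ∑ y, |(NoCutoff.P (NoCutoff.SS p k r) ^ j) 0 y - c| := by
    rw [mul_sum]
    refine sum_le_sum fun y _ => (le_abs_self _).trans ?_
    rw [abs_mul, abs_mul, h1, one_mul, abs_of_nonneg (w0 j)]
  nlinarith [mul_le_mul_of_nonneg_left u (w0 j)]

lemma d_low (t : ℝ) (ht : 0 ≤ t) (T : ℕ) (h : 2 * T ≤ k) :
    Real.exp (-(t / r)) - Real.exp (t * 2) / 2 ^ T - 1 / (p : ℝ) ^ 2 ≤ d (Γ p k r) 0 t := by
  have w0 := wt0 (s := t * 2) (by linarith)
  have r1 : (1 : ℝ) ≤ r := by exact_mod_cast NeZero.pos r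
  have s1 : ∑ y, NormedSpace.exp (t • (J (Γ p k r) - 1)) 0 y = 1 := by
    have a := hasSum_sum (s := univ) fun y _ => hs (p := p) (k := k) (r := r) t 0 y
    simp only [← mul_sum, P_sum (S := NoCutoff.SS p k r) NoCutoff.SS_neg NoCutoff.SS_ne] at a
    simpa using a.unique (by simpa using wt_sum (t * 2) 1)
  have a := tv_ge s1 (NoCutoff.R p k T ×ˢ univ)
  have b := hasSum_sum (s := NoCutoff.R p k T ×ˢ univ) fun y _ => hs (p := p) (k := k) (r := r) t 0 y
  have e := (wt_sum (t * 2) (1 - 1 / (2 * r))).sub ((wt_sum (t * 2) 2).div_const (2 ^ T))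
  rw [show t * 2 * (1 - 1 / (2 * r) - 1) = -(t / r) by field_simp; ring,
    show t * 2 * (2 - 1) = t * 2 by ring] at e
  have f := hasSum_le (fun j => ?_) e b
  · simp only [d, estat]
    linarith [small (p := p) (r := r) T h]
  rw [← mul_sum, mul_div_assoc, ← mul_sub]
  refine mul_le_mul_of_nonneg_left ?_ (w0 j)
  rcases le_total j T with hj | hj
  · exact (sub_le_self _ (by positivity)).trans (mass j T hj)
  · refine le_trans ?_ (sum_nonneg fun _ _ => P_nonneg _ _ _)
    have b0 : (0 : ℝ) ≤ 1 - 1 / (2 * r) := by rw [sub_nonneg, div_le_one (by positivity)]; linarith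
    have : (1 - 1 / (2 * r) : ℝ) ^ j ≤ 1 := pow_le_one₀ b0 (sub_le_self _ (by positivity))
    have : (1 : ℝ) ≤ 2 ^ j / 2 ^ T := by
      rw [le_div_iff₀ (by positivity), one_mul]
      exact pow_le_pow_right₀ (by norm_num) hj
    linarith

lemma gap (hp : 4 * (k + 2) ≤ p) : lam2 (Γ p k r) ≤ 3 / 4 := by
  refine Real.sSup_le ?_ (by norm_num)
  rintro l ⟨hl, f, hf, he⟩
  have a : (1 + l) / 2 ≤ MP_8d2225_pr.NoCutoff.lam2 (NoCutoff.SS p k r) := by
    refine le_csSup ⟨1, ?_⟩ ⟨fun h => hl (by linarith), f, hf, ?_⟩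
    · rintro l ⟨-, f, hf, he⟩
      rw [NoCutoff.mulVec_eq] at he
      simpa using NoCutoff.eig hf he (NoCutoff.kill (c := 0) NoCutoff.SS_ne NoCutoff.zero_nm
        (empty_subset _) (by simp) (by simp))
    · have := congrArg (· *ᵥ f) (eJ (p := p) (k := k) (r := r))
      simp only [sub_mulVec, smul_mulVec, one_mulVec, he] at this
      ext y
      have := congrFun this y
      simp only [Pi.sub_apply, Pi.smul_apply, smul_eq_mul] at this ⊢
      linarith
  linarith [MP_8d2225_pr.NoCutoff.gap (r := r) hp]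

lemma ex (x : ℝ) (h : 0 ≤ x) : Real.exp (-x) ≤ 1 / (1 + x) := by
  rw [Real.exp_neg, ← one_div]
  exact one_div_le_one_div_of_le (by linarith) (by linarith [Real.add_one_le_exp x])

lemma times (hr : 40 ≤ r) (hk : k = 16 * r) (hp : 100 ≤ p) :
    (r : ℝ) / 2 ≤ tau (Γ p k r) 0 ∧
      d (Γ p k r) 0 ((1 - 1 / 10) * tau (Γ p k r) 0) ≤ 1 - 1 / 10 := by
  have r0 : (40 : ℝ) ≤ r := by exact_mod_cast hr
  have p0 : 1 / (p : ℝ) ^ 2 ≤ 1 / 100 ^ 2 := by gcongr; exact_mod_cast hp
  have up : ∀ t a b : ℝ, 0 ≤ a → 0 ≤ b → a * (r + 1) ≤ t → b * 2 ≤ t →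
      d (Γ p k r) 0 t ≤ 1 / (1 + a) + 1 / (1 + b) := fun t a b ha hb h1 h2 =>
    (d_up t (by linarith)).trans (add_le_add
      ((Real.exp_le_exp.2 (neg_le_neg ((le_div_iff₀ (by linarith)).2 h1))).trans (ex a ha))
      ((Real.exp_le_exp.2 (by linarith)).trans (ex b hb)))
  have a : (r : ℝ) / 2 ≤ tau (Γ p k r) 0 := by
    refine le_csInf ⟨7 * (r + 1), by positivity,
      (up _ 7 7 (by norm_num) (by norm_num) le_rfl (by linarith)).trans (by norm_num)⟩ ?_
    rintro t ⟨h0, h1⟩
    by_contra! h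
    have b := d_low (p := p) (k := k) (r := r) t h0 (8 * r) (by omega)
    have c := Real.add_one_le_exp (-(t / r))
    have e : t / r ≤ 1 / 2 := by rw [div_le_iff₀ (by linarith)]; linarith
    have f : Real.exp (t * 2) / 2 ^ (8 * r) ≤ 3 / 256 := by
      have f1 : Real.exp (t * 2) ≤ 3 ^ r := by
        refine (Real.exp_le_exp.2 (show t * 2 ≤ r * 1 by linarith)).trans ?_
        rw [Real.exp_nat_mul]
        exact pow_le_pow_left₀ (by positivity) (by linarith [Real.exp_one_lt_d9]) _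
      refine (div_le_div_of_nonneg_right f1 (by positivity)).trans ?_
      rw [pow_mul, ← div_pow]
      exact (pow_le_pow_of_le_one (by norm_num) (by norm_num) (show 1 ≤ r by omega)).trans
        (by norm_num)
    linarith
  exact ⟨a, (up _ (2 / 5) 9 (by norm_num) (by norm_num) (by linarith) (by linarith)).trans
    (by norm_num)⟩

open Classical in
lemma none {t a : ℝ} (h : d (Γ p k r) 0 t ≤ a) :
    ∑ x with a < d (Γ p k r) x t, stat (Γ p k r) x = 0 := by
  refine sum_eq_zero fun x hx => ?_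
  rw [mem_filter, d_shift] at hx
  exact absurd hx.2 (not_lt.2 h)

open Classical in
/-- Connected graphs on which all `tau x` are equal (so their common value `m n` is the median),
with the product condition and without cutoff from a stationary start. -/
theorem result : ∃ (V : ℕ → Type) (_ : ∀ n, Fintype (V n)) (_ : ∀ n, DecidableEq (V n))
    (G : ∀ n, SimpleGraph (V n)) (_ : ∀ n, DecidableRel (G n).Adj) (m : ℕ → ℝ),
    (∀ n, (G n).Connected) ∧
    Tendsto (fun n => Fintype.card (V n)) atTop atTop ∧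
    (∀ n x, tau (G n) x = m n) ∧
    Tendsto (fun n => m n / tau2 (G n)) atTop atTop ∧
    ∃ ε : ℝ, 0 < ε ∧ ε < 1 ∧ ¬ Tendsto
      (fun n => ∑ x with 1 - ε < d (G n) x ((1 - ε) * m n), stat (G n) x) atTop (𝓝 1) := by
  choose p hp pr using fun n : ℕ => Nat.exists_infinite_primes (4 * (16 * (n + 40) + 2))
  haveI : ∀ n, Fact (p n).Prime := fun n => ⟨pr n⟩
  haveI : ∀ n : ℕ, NeZero (n + 40) := fun n => ⟨by omega⟩
  have T := fun n => times (p := p n) (k := 16 * (n + 40)) (r := n + 40) (by omega) rfl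
    (by have := hp n; omega)
  refine ⟨_, inferInstance, inferInstance, fun n => Γ (p n) (16 * (n + 40)) (n + 40), inferInstance,
    fun n => tau (Γ (p n) (16 * (n + 40)) (n + 40)) 0,
    fun n => cay_conn _ _ NoCutoff.SS_gen, ?_, fun n x => ?_, ?_, 1 / 10, by norm_num, by norm_num,
    fun h => ?_⟩
  · exact tendsto_atTop_mono (fun n => le_trans (by dsimp; omega) card_ge) tendsto_id
  · simp only [tau, d_shift x]
  · refine tendsto_atTop_mono (fun n => ?_)
      (tendsto_natCast_atTop_atTop.const_mul_atTop (by norm_num : (0 : ℝ) < 1 / 8))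
    have a := gap (r := n + 40) (hp n)
    have b := (T n).1
    push_cast at b
    rw [tau2, div_div_eq_mul_div, div_one]
    nlinarith [(Nat.cast_nonneg n : (0 : ℝ) ≤ n)]
  · refine absurd (le_of_tendsto' (b := 0) h fun n => ?_) (by norm_num)
    exact (none (T n).2).le

end

end Pool.Agent.Results.MP_ec2323_pr.NoCutoff
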